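import Pool.Agent.Helper88.Ric.Stmts

set_option autoImplicit false

namespace RicP

theorem FPER_thd_shift (k : ℕ) (L T : ℝ) (hL : 0 < L) (m : ℤ) :
    thd k (L, T + m * L) = thd k (L, T) := by
  unfold thd
  refine tsum_congr fun n => ?_
  congr 1
  have h : 2 * Real.pi * (n : ℝ) * ((T + m * L) / L - 1 / 2)
      = 2 * Real.pi * (n : ℝ) * (T / L - 1 / 2) + ((n * m : ℤ) : ℝ) * (2 * Real.pi) := by
    have hL' : L ≠ 0 := hL.ne'
    push_cast
    field_simp
    ring
  show Real.cos (2 * Real.pi * (n : ℝ) * ((T + m * L) / L - 1 / 2))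
    = Real.cos (2 * Real.pi * (n : ℝ) * (T / L - 1 / 2))
  rw [h, Real.cos_add_int_mul_two_pi]

theorem FPER_thd_even (k : ℕ) (L T : ℝ) (_hL : 0 < L) :
    thd k (L, -T) = thd k (L, T) := by
  unfold thd
  refine tsum_congr fun n => ?_
  congr 1
  have h : 2 * Real.pi * (n : ℝ) * (-T / L - 1 / 2)
      = -(2 * Real.pi * (n : ℝ) * (T / L - 1 / 2) + ((n : ℤ) : ℝ) * (2 * Real.pi)) := by
    ring
  show Real.cos (2 * Real.pi * (n : ℝ) * (-T / L - 1 / 2))
    = Real.cos (2 * Real.pi * (n : ℝ) * (T / L - 1 / 2))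
  rw [h, Real.cos_neg, Real.cos_add_int_mul_two_pi]

theorem st_FPER : ST_FPER := by
  intro ε L T _ hL
  have hL' : L ≠ 0 := hL.ne'
  refine ⟨fun m => ?_, ?_⟩
  · have h1 : FD (L, T + m * L) = FD (L, T) := by
      unfold FD
      rw [FPER_thd_shift 1 L T hL m, FPER_thd_shift 2 L T hL m, FPER_thd_shift 4 L T hL m]
      rfl
    have h2 : FU (L, T + m * L) = FU (L, T) + 28 * (2 * m * T + (m : ℝ) ^ 2 * L) := by
      show 28 * (T + m * L) ^ 2 / L - 23 * Real.log L
        = 28 * T ^ 2 / L - 23 * Real.log L + 28 * (2 * m * T + (m : ℝ) ^ 2 * L)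
      field_simp
      ring
    unfold Feps
    rw [h1, h2]
    show FU (L, T) + 28 * (2 * m * T + (m : ℝ) ^ 2 * L) +
        Real.smoothTransition (L / ε - 1) * FD (L, T)
      = FU (L, T) + Real.smoothTransition (L / ε - 1) * FD (L, T) +
        28 * (2 * m * T + (m : ℝ) ^ 2 * L)
    ring
  · have h1 : FD (L, -T) = FD (L, T) := by
      unfold FD
      rw [FPER_thd_even 1 L T hL, FPER_thd_even 2 L T hL, FPER_thd_even 4 L T hL]
      rfl
    have h2 : FU (L, -T) = FU (L, T) := by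
      show 28 * (-T) ^ 2 / L - 23 * Real.log L = 28 * T ^ 2 / L - 23 * Real.log L
      ring
    unfold Feps
    rw [h1, h2]

end RicP
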